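import Pool.Agent.L0h45.AV.Stm3
import Pool.Agent.L0h82.AV.NBH

/-!
# Project AV, module NBHn (helper39, after helper82's NBH): the tuples with small `a`, of any sign,
are near those with `a = 0`
-/

set_option autoImplicit false
set_option linter.all false

open MeasureTheory Filter Topology

namespace Pool.Agent.L0h39.AV

open Pool.Agent.L0h45.AV Pool.Agent.L0h82.AV
open Pool.Agent.N874.PP (Tup chA chB gq tau)

/-- the compact set of parameters -/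
def EN (T δ : ℝ) : Set E5 :=
  {e | (0 ≤ e.1 ∧ e.1 ≤ 1 / 2) ∧ (1 / 2 ≤ e.2.1 ∧ e.2.1 ≤ T) ∧ 1 / 2 ≤ e.1 ^ 2 + e.2.1 ^ 2 ∧
    (-2 ≤ e.2.2.1 ∧ e.2.2.1 ≤ 2) ∧
    12 * e.2.2.1 ^ 2 - 1 ≤ e.2.2.2.1 ^ 2 + e.2.2.2.2 ^ 2 ∧
    e.2.2.2.1 ^ 2 + e.2.2.2.2 ^ 2 ≤ 12 * e.2.2.1 ^ 2 + 1 ∧
    δ * (4 * e.2.1 ^ 2) ≤ 3 * e.2.2.1 + e.2.2.2.1}

theorem EN_compact (T δ : ℝ) : IsCompact (EN T δ) := by
  have h1 : IsClosed (EN T δ) := by
    unfold EN
    simp only [Set.setOf_and]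
    exact ((isClosed_le (by fun_prop) (by fun_prop)).inter (isClosed_le (by fun_prop) (by fun_prop))).inter
      (((isClosed_le (by fun_prop) (by fun_prop)).inter (isClosed_le (by fun_prop) (by fun_prop))).inter
      ((isClosed_le (by fun_prop) (by fun_prop)).inter
      (((isClosed_le (by fun_prop) (by fun_prop)).inter (isClosed_le (by fun_prop) (by fun_prop))).inter
      ((isClosed_le (by fun_prop) (by fun_prop)).inter ((isClosed_le (by fun_prop) (by fun_prop)).inter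
      (isClosed_le (by fun_prop) (by fun_prop)))))))
  refine (isCompact_Icc (a := ((0, 1 / 2, -2, -7, -7) : E5)) (b := (1 / 2, T, 2, 7, 7))).of_isClosed_subset h1 ?_
  rintro ⟨p, v, θ, C, S⟩ ⟨⟨a1, a2⟩, ⟨b1, b2⟩, -, ⟨c1, c2⟩, -, d, -⟩
  simp only at a1 a2 b1 b2 c1 c2 d
  have hθ : θ ^ 2 ≤ 4 := by nlinarith
  have hC : C ^ 2 ≤ 7 ^ 2 := by nlinarith [sq_nonneg S]
  have hS : S ^ 2 ≤ 7 ^ 2 := by nlinarith [sq_nonneg C]
  have hC' := abs_le_of_sq_le_sq' hC (by norm_num)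
  have hS' := abs_le_of_sq_le_sq' hS (by norm_num)
  exact ⟨⟨a1, b1, c1, hC'.1, hS'.1⟩, ⟨a2, b2, c2, hC'.2, hS'.2⟩⟩

theorem Phi_contN (T δ : ℝ) (hδ : 0 < δ) : ContinuousOn Phi (EN T δ) := by
  have hv : ∀ e ∈ EN T δ, e.2.1 ≠ 0 := by
    rintro e ⟨-, ⟨b1, -⟩, -⟩
    have : (0 : ℝ) < e.2.1 := by linarith
    exact this.ne'
  rw [continuousOn_pi]
  intro i
  fin_cases i
  · show ContinuousOn (fun e : E5 => Real.log ((3 * e.2.2.1 + e.2.2.2.1) / (4 * e.2.1 ^ 2))) _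
    refine ContinuousOn.log (ContinuousOn.div (by fun_prop) (by fun_prop) ?_) ?_
    · intro e he
      have := hv e he
      positivity
    · intro e he
      have h0 := hv e he
      have h1 : 0 < 3 * e.2.2.1 + e.2.2.2.1 := by
        have h2 : 0 < δ * (4 * e.2.1 ^ 2) := by positivity
        exact h2.trans_le he.2.2.2.2.2.2
      have h3 : (0 : ℝ) < 4 * e.2.1 ^ 2 := by positivity
      exact (div_pos h1 h3).ne'
  · show ContinuousOn (fun e : E5 => (2 * e.1 * (3 * e.2.2.1 + e.2.2.2.1) - e.2.2.2.2 * e.2.1) / (4 * e.2.1 ^ 2)) _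
    refine ContinuousOn.div (by fun_prop) (by fun_prop) ?_
    intro e he
    have := hv e he
    positivity
  · show ContinuousOn (fun e : E5 => -(e.1 ^ 2 * (3 * e.2.2.1 + e.2.2.2.1) - e.1 * e.2.2.2.2 * e.2.1 +
      e.2.2.1 * e.2.1 ^ 2) / (2 * e.2.1 ^ 2)) _
    refine ContinuousOn.div (by fun_prop) (by fun_prop) ?_
    intro e he
    have := hv e he
    positivity
  · show ContinuousOn (fun e : E5 => (-2 * e.1 ^ 3 * (3 * e.2.2.1 + e.2.2.2.1) + 3 * e.1 ^ 2 * e.2.2.2.2 * e.2.1 -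
      6 * e.1 * e.2.2.1 * e.2.1 ^ 2 + e.2.2.2.2 * e.2.1 ^ 3) / (2 * e.2.1 ^ 2)) _
    refine ContinuousOn.div (by fun_prop) (by fun_prop) ?_
    intro e he
    have := hv e he
    positivity

/-- the distance of the parameters from those with `a = 0` -/
noncomputable def gap (e : E5) : ℝ :=
  max (|e.2.2.1| - 1) 0 + |e.2.2.2.1 ^ 2 + e.2.2.2.2 ^ 2 - 12 * e.2.2.1 ^ 2|

theorem gap_cont : Continuous gap := by
  unfold gap
  fun_prop

theorem gap_nonneg (e : E5) : 0 ≤ gap e :=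
  add_nonneg (le_max_right _ _) (abs_nonneg _)

/-- **NBHn.** -/
theorem t_NBHn : S_NBHn := by
  intro T δ hT hδ
  have hcont := Phi_contN T δ hδ
  have himg := image_eq T δ hδ
  refine ⟨(t_NBH T δ hT hδ).1, ?_⟩
  intro U hU hKU
  rw [himg] at hKU
  -- the bad set
  have hK : IsCompact (EN T δ ∩ Phi ⁻¹' Uᶜ) := by
    obtain ⟨u, hu, hu2⟩ := continuousOn_iff_isClosed.1 hcont Uᶜ hU.isClosed_compl
    rw [Set.inter_comm, hu2, Set.inter_comm]
    exact (EN_compact T δ).inter_right hu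
  -- membership
  have hmem : ∀ p v θ C S a₀ : ℝ, a₀ ≤ 1 → FD p v → v ≤ T → |θ| ≤ 1 + a₀ →
      |C ^ 2 + S ^ 2 - 12 * θ ^ 2| ≤ a₀ → δ ≤ (Bp p v θ C S).x → ((p, v, θ, C, S) : E5) ∈ EN T δ := by
    intro p v θ C S a₀ ha hF hv hθ h1 hx
    obtain ⟨h2, h3⟩ := abs_le.1 h1
    obtain ⟨h4, h5⟩ := abs_le.1 (hθ.trans (show 1 + a₀ ≤ 2 by linarith))
    refine ⟨⟨hF.1, hF.2.1⟩, ⟨half_le _ _ hF, hv⟩, hF.2.2.2, ⟨h4, h5⟩, ?_, ?_, ?_⟩
    · show 12 * θ ^ 2 - 1 ≤ C ^ 2 + S ^ 2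
      linarith
    · show C ^ 2 + S ^ 2 ≤ 12 * θ ^ 2 + 1
      linarith
    · exact (x_iff _ _ _ _ _ _ hF.2.2.1).1 hx
  by_cases hne : (EN T δ ∩ Phi ⁻¹' Uᶜ).Nonempty
  · obtain ⟨e₀, he₀, hmin⟩ := hK.exists_isMinOn hne gap_cont.continuousOn
    have hm : 0 < gap e₀ := by
      rcases (gap_nonneg e₀).lt_or_eq with h2 | h2
      · exact h2
      · exfalso
        have h3 : max (|e₀.2.2.1| - 1) 0 = 0 := le_antisymm (by
          have h4 := abs_nonneg (e₀.2.2.2.1 ^ 2 + e₀.2.2.2.2 ^ 2 - 12 * e₀.2.2.1 ^ 2)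
          unfold gap at h2
          linarith) (le_max_right _ _)
        have h4 : |e₀.2.2.2.1 ^ 2 + e₀.2.2.2.2 ^ 2 - 12 * e₀.2.2.1 ^ 2| = 0 := by
          unfold gap at h2
          linarith
        have h5 := sub_eq_zero.1 (abs_eq_zero.1 h4)
        have h6 : |e₀.2.2.1| ≤ 1 := by
          have := le_max_left (|e₀.2.2.1| - 1) 0
          rw [h3] at this
          linarith
        obtain ⟨h7, h8⟩ := abs_le.1 h6
        refine he₀.2 (hKU ⟨e₀, ⟨⟨he₀.1.1, he₀.1.2.1, he₀.1.2.2.1, ⟨h7, h8⟩, ?_, ?_, he₀.1.2.2.2.2.2.2⟩, h5⟩,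
          rfl⟩)
        · rw [h5]
        · rw [h5]
          linarith
    refine ⟨min 1 (gap e₀ / 3), lt_min one_pos (by linarith), ?_⟩
    intro p v θ C S hF hv hθ h1 hx
    by_contra hcon
    have h3 := hmin (show ((p, v, θ, C, S) : E5) ∈ EN T δ ∩ Phi ⁻¹' Uᶜ from
      ⟨hmem p v θ C S _ (min_le_left _ _) hF hv hθ h1 hx, hcon⟩)
    simp only [Set.mem_setOf_eq] at h3
    have h4 := min_le_right (1 : ℝ) (gap e₀ / 3)
    have h5 : gap (p, v, θ, C, S) ≤ 2 * min 1 (gap e₀ / 3) := by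
      show max (|θ| - 1) 0 + |C ^ 2 + S ^ 2 - 12 * θ ^ 2| ≤ _
      have h6 : (0 : ℝ) < min 1 (gap e₀ / 3) := lt_min one_pos (by linarith)
      have h7 : max (|θ| - 1) 0 ≤ min 1 (gap e₀ / 3) := max_le (by linarith) h6.le
      linarith
    linarith
  · refine ⟨1, one_pos, ?_⟩
    intro p v θ C S hF hv hθ h1 hx
    by_contra hcon
    exact hne ⟨(p, v, θ, C, S), hmem p v θ C S 1 le_rfl hF hv hθ h1 hx, hcon⟩

end Pool.Agent.L0h39.AV
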